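import Mathlib
import Pool.Agent.Q169.PoissonZero

/-!
# Poisson homeomorphisms need not lift to the symplectic groupoid

For the zero Poisson bracket on `ℝⁿ`, `n ≥ 1`, every diffeomorphism is a Poisson diffeomorphism and
the canonical integration is the cotangent bundle `T*ℝⁿ = ℝⁿ × ℝⁿ` with its canonical symplectic
form and the bundle projection `t (x, p) = x`. We give a Poisson homeomorphism `φ` of `ℝⁿ` for
which no symplectic homeomorphism `Φ` of `T*ℝⁿ` satisfies `t ∘ Φ = φ ∘ t`.

Reason: `Φ` does not decrease the volume of compact sets, since it is a limit of volume preserving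
maps. But `φ` can be chosen to map some compact set of positive measure onto a null set.
-/

set_option autoImplicit false

open MeasureTheory Set Filter Topology
open scoped ContDiff

namespace Pool.Agent.Results.MP_bef951_gt.ZeroBracket

section Definitions

variable {V : Type*} [NormedAddCommGroup V] [NormedSpace ℝ V]

/-- `f` is a `C^∞` diffeomorphism of the vector space `V`. -/
def IsDiffeo (f : V → V) : Prop :=
  ContDiff ℝ ∞ f ∧ ∃ g : V → V, ContDiff ℝ ∞ g ∧ Function.LeftInverse g f ∧
    Function.RightInverse g f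

/-- `C⁰` convergence: uniform convergence on compact subsets. -/
def C0Converges (f : ℕ → V → V) (F : V → V) : Prop :=
  ∀ K : Set V, IsCompact K → TendstoUniformlyOn f F atTop K

/-- A bracket on the functions on `V`. -/
abbrev Bracket (V : Type*) : Type _ := (V → ℝ) → (V → ℝ) → (V → ℝ)

/-- The zero Poisson bracket. -/
def zeroBracket (V : Type*) : Bracket V := fun _ _ _ => 0

/-- Poisson diffeomorphisms: diffeomorphisms `f` with `{F ∘ f, G ∘ f} = {F, G} ∘ f` for all smooth
functions `F`, `G`. -/
def IsPoissonDiffeo (br : Bracket V) (f : V → V) : Prop :=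
  IsDiffeo f ∧ ∀ F G : V → ℝ, ContDiff ℝ ∞ F → ContDiff ℝ ∞ G → br (F ∘ f) (G ∘ f) = br F G ∘ f

/-- Poisson homeomorphisms: homeomorphisms which are `C⁰` limits of Poisson diffeomorphisms. -/
def IsPoissonHomeo (br : Bracket V) (φ : V ≃ₜ V) : Prop :=
  ∃ f : ℕ → V → V, (∀ k, IsPoissonDiffeo br (f k)) ∧ C0Converges f φ

end Definitions

/-- The cotangent bundle `T*ℝⁿ`: pairs `(x, p)`. -/
abbrev Cot (n : ℕ) : Type := (Fin n → ℝ) × (Fin n → ℝ)

/-- The canonical symplectic form `∑ dxᵢ ∧ dpᵢ` of `T*ℝⁿ` (the same at all points). -/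
def canonicalForm (n : ℕ) (u v : Cot n) : ℝ := ∑ i, (u.1 i * v.2 i - u.2 i * v.1 i)

/-- Symplectic diffeomorphisms of `T*ℝⁿ`. -/
def IsSymplecticDiffeo {n : ℕ} (f : Cot n → Cot n) : Prop :=
  IsDiffeo f ∧ ∀ z u v : Cot n,
    canonicalForm n (fderiv ℝ f z u) (fderiv ℝ f z v) = canonicalForm n u v

/-- Symplectic homeomorphisms of `T*ℝⁿ`: homeomorphisms which are `C⁰` limits of symplectic
diffeomorphisms. -/
def IsSymplecticHomeo {n : ℕ} (Φ : Cot n ≃ₜ Cot n) : Prop :=
  ∃ f : ℕ → Cot n → Cot n, (∀ k, IsSymplecticDiffeo (f k)) ∧ C0Converges f Φ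

/-! ### Proof -/

/-- The canonical form as a bilinear form. -/
noncomputable def formB (n : ℕ) : LinearMap.BilinForm ℝ (Cot n) :=
  LinearMap.mk₂ ℝ (canonicalForm n)
    (fun u u' v => by simp only [canonicalForm, ← Finset.sum_add_distrib]; congr 1; ext i
                      simp; ring)
    (fun c u v => by simp only [canonicalForm, smul_eq_mul, Finset.mul_sum]; congr 1; ext i
                     simp; ring)
    (fun u v v' => by simp only [canonicalForm, ← Finset.sum_add_distrib]; congr 1; ext i
                      simp; ring)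
    (fun c u v => by simp only [canonicalForm, smul_eq_mul, Finset.mul_sum]; congr 1; ext i
                     simp; ring)

theorem formB_nondegenerate (n : ℕ) : (formB n).Nondegenerate := by
  have key : ∀ u : Cot n, (∀ v, canonicalForm n u v = 0) → u = 0 := by
    intro u hu
    ext i
    · have := hu (0, Pi.single i 1)
      simpa [canonicalForm, Pi.single_apply] using this
    · have := hu (Pi.single i 1, 0)
      simpa [canonicalForm, Pi.single_apply] using this
  have skew : ∀ u v : Cot n, canonicalForm n u v = - canonicalForm n v u := by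
    intro u v
    simp only [canonicalForm, ← Finset.sum_neg_distrib]
    congr 1; ext i; ring
  refine ⟨fun u hu => key u hu, fun u hu => key u fun v => ?_⟩
  rw [skew, neg_eq_zero]
  exact hu v

theorem volume_image {n : ℕ} {f : Cot n → Cot n} (hf : IsSymplecticDiffeo f) {K : Set (Cot n)}
    (hK : MeasurableSet K) : volume (f '' K) = volume K := by
  obtain ⟨⟨hs, g, hg, hl, hr⟩, hω⟩ := hf
  have : (volume : Measure (Cot n)).IsAddHaarMeasure := by
    apply Measure.prod.instIsAddHaarMeasure
  have h := lintegral_abs_det_fderiv_eq_addHaar_image (volume : Measure (Cot n)) hK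
    (f := f) (f' := fun x => fderiv ℝ f x)
    (fun x _ => ((hs.differentiable (by simp)) x).hasFDerivAt.hasFDerivWithinAt)
    hl.injective.injOn
  rw [← h]
  have hd : ∀ x, |(fderiv ℝ f x).det| = 1 := fun x =>
    Q169.PoissonZero.abs_det_eq_one ((Pi.basisFun ℝ (Fin n)).prod (Pi.basisFun ℝ (Fin n)))
      (formB n) (formB_nondegenerate n) _ (fun u v => hω x u v)
  simp [hd]

/-- **Negative answer to Q1.** For the zero bracket on `ℝⁿ`, `n ≥ 1`, there is a Poisson
homeomorphism `φ` such that no symplectic homeomorphism `Φ` of `T*ℝⁿ` covers `φ`. -/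
theorem result (n : ℕ) (hn : 1 ≤ n) :
    ∃ φ : (Fin n → ℝ) ≃ₜ (Fin n → ℝ), IsPoissonHomeo (zeroBracket (Fin n → ℝ)) φ ∧
      ¬ ∃ Φ : Cot n ≃ₜ Cot n, IsSymplecticHomeo Φ ∧ ∀ z : Cot n, (Φ z).1 = φ z.1 := by
  obtain ⟨A, φ, f, hA, hpos, hnull, hsm, happ⟩ := Q169.PoissonZero.exists_line
  refine ⟨Homeomorph.piCongrRight fun _ => φ, ⟨fun k x i => f k (x i), fun k => ⟨⟨?_,
    fun x i => (f k).symm (x i), ?_, fun x => by ext i; simp, fun x => by ext i; simp⟩,
    fun F G _ _ => rfl⟩, fun K hK => ?_⟩, ?_⟩
  · exact contDiff_pi.2 fun i => (hsm k).1.comp (contDiff_apply ℝ ℝ i)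
  · exact contDiff_pi.2 fun i => (hsm k).2.comp (contDiff_apply ℝ ℝ i)
  · obtain ⟨R, hR⟩ := hK.isBounded.subset_closedBall 0
    rw [Metric.tendstoUniformlyOn_iff]
    intro ε hε
    have hlim : Tendsto (fun k : ℕ => (1 + |R|) * (1 / ((k : ℝ) + 1))) atTop (𝓝 0) := by
      simpa using tendsto_one_div_add_atTop_nhds_zero_nat.const_mul (1 + |R|)
    filter_upwards [hlim.eventually_lt_const hε] with k hk x hx
    rw [dist_pi_lt_iff hε]
    intro i
    refine lt_of_le_of_lt (happ |R| (abs_nonneg R) k (x i) ?_) hk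
    have h1 := hR hx
    rw [mem_closedBall_zero_iff] at h1
    exact (norm_le_pi_norm x i).trans (h1.trans (le_abs_self R))
  · rintro ⟨Φ, ⟨F, hF, hlim⟩, hcov⟩
    set K : Set (Cot n) := (Set.pi univ fun _ : Fin n => A) ×ˢ
      (Set.pi univ fun _ : Fin n => Icc (0 : ℝ) 1) with hKdef
    have hK : IsCompact K :=
      (isCompact_univ_pi fun _ => hA).prod (isCompact_univ_pi fun _ => isCompact_Icc)
    have h1 : volume K ≤ volume (Φ '' K) :=
      Q169.PoissonZero.volume_le_of_limit _ hK F Φ Φ.continuous (hlim K hK)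
        (fun k => (volume_image (hF k) hK.measurableSet).ge)
    have h2 : 0 < volume K := by
      rw [hKdef, Measure.volume_eq_prod, Measure.prod_prod, volume_pi_pi, volume_pi_pi]
      simp only [Real.volume_Icc, Finset.prod_const]
      exact ENNReal.mul_pos (pow_ne_zero _ hpos.ne') (by simp)
    have h3 : volume (Φ '' K) = 0 := by
      have hsub : Φ '' K ⊆ (Set.pi univ fun _ : Fin n => φ '' A) ×ˢ univ := by
        rintro _ ⟨z, hz, rfl⟩
        refine ⟨fun i _ => ?_, mem_univ _⟩
        rw [hcov z]
        exact mem_image_of_mem _ (hz.1 i (mem_univ i))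
      refine measure_mono_null hsub ?_
      rw [Measure.volume_eq_prod, Measure.prod_prod, volume_pi_pi]
      simp only [hnull, Finset.prod_const, Finset.card_univ, Fintype.card_fin]
      rw [zero_pow (by omega), zero_mul]
    rw [h3] at h1
    exact absurd h2 (not_lt.2 h1)

end Pool.Agent.Results.MP_bef951_gt.ZeroBracket
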